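import Pool.Agent.helper36.PP.SpecD
import Pool.Agent.helper56.MQ.NG2

/-!
# Project pp: (MP_70a088_an): NG2, no wide strip if the partner relation is symmetric (adapted from helper56/MQ/NG2.lean)
-/

set_option autoImplicit false

open Complex Metric Set Filter Topology MeasureTheory MPS MQ

noncomputable section

namespace PPS

theorem NG2 (hLT : PPS.LT_stmt) (hCOC : PPS.COC_stmt) (hSYM : MQ.SYM_stmt) (hUNQ : MQ.UNQ_stmt)
    (hPLA : MQ.PLA_stmt) : PPS.NG2_stmt := by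
  intro n d₀ r₀ ra hn hd₀ hr₀ hr₁ hra
  obtain ⟨η, hη0, hη1, hη2⟩ : ∃ η : ℝ, 0 < η ∧ η ≤ r₀ / 2000 ∧ η ≤ d₀ / 8 :=
    ⟨min (r₀ / 2000) (d₀ / 8), by positivity, min_le_left _ _, min_le_right _ _⟩
  obtain ⟨R₀, hR₀, ε₀, hε₀, H⟩ := hLT n r₀ η ra hn hr₀ hr₁ hη0 hra
  refine ⟨R₀, hR₀, ε₀, hε₀, ?_⟩
  intro k _ f b g ψ R ε hSU hF hR hε hd i l S y hil hil2 hS hStrip
  have hk0 : 0 < k := Nat.pos_of_ne_zero (NeZero.ne k)
  have hb0 : ∀ i, fd f (b i) ≠ 0 := hSU.cyc.ne0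
  have hψ0 : ∀ i, deriv (ψ i) 0 ≠ 0 := fun i => (hF.mx i).pn.der
  have hρ0 : rho f b ≠ 0 := by
    intro h0
    have := hSU.rho1
    rw [h0, norm_zero] at this
    linarith
  have hS' : S.re ≤ r₀ / 1000 := by
    have : r₀ / 10 ^ 6 ≤ r₀ / 1000 := by
      apply div_le_div_of_nonneg_left hr₀.le (by norm_num) (by norm_num)
    linarith
  -- the index q
  obtain ⟨q, hq⟩ : ∃ q : ℕ, q = (l - i).val := ⟨_, rfl⟩
  have hqk : q < k := by rw [hq]; exact ZMod.val_lt _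
  have hqc : (q : ZMod k) = l - i := by rw [hq]; exact ZMod.natCast_zmod_val _
  have hq1 : 1 ≤ q := by
    rcases Nat.eq_zero_or_pos q with h | h
    · exfalso
      rw [h, Nat.cast_zero] at hqc
      exact hil (sub_eq_zero.1 hqc.symm).symm
    · exact h
  have hiq : i - (q : ZMod k) = l := by
    rw [hqc]
    have : i - (l - i) = (i + i) - l := by ring
    rw [this, hil2]
    ring
  have hlq : l - (q : ZMod k) = i := by
    rw [hqc]; ring
  have hqq : q + q = k := by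
    have h0 : ((q + q : ℕ) : ZMod k) = 0 := by
      rw [Nat.cast_add, hqc]
      have : l - i + (l - i) = (l + l) - (i + i) := by ring
      rw [this, hil2, sub_self]
    rw [ZMod.natCast_eq_zero_iff] at h0
    obtain ⟨a, ha⟩ := h0
    have ha1 : a = 1 := by
      have h1 : k * a < k * 2 := by omega
      have h2 : k * 0 < k * a := by omega
      have h3 := lt_of_mul_lt_mul_left h1 (Nat.zero_le k)
      have h4 := lt_of_mul_lt_mul_left h2 (Nat.zero_le k)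
      omega
    rw [ha, ha1, mul_one]
  -- transport by k and by q
  obtain ⟨κ₁, κ₁', S₁, hκ₁, hκ₁', hS₁, -, -, hB⟩ :=
    H k f b g ψ R ε hSU hF hR hε i l k S y hil hk0 le_rfl hStrip hS'
  obtain ⟨κ₂, κ₂', S₂, hκ₂, hκ₂', hS₂, -, -, hC⟩ :=
    H k f b g ψ R ε hSU hF hR hε i l q S y hil hq1 hqk.le hStrip hS'
  have hk00 : ((k : ℕ) : ZMod k) = 0 := ZMod.natCast_self k
  rw [hk00, sub_zero, sub_zero] at hB
  rw [hiq, hlq] at hC
  have K1 : Complex.exp κ₁ = (rho f b)⁻¹ := by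
    rw [hκ₁, (hCOC k f b ψ hb0 hψ0 i).2.2.1]
  have K1' : Complex.exp κ₁' = (rho f b)⁻¹ := by
    rw [hκ₁', (hCOC k f b ψ hb0 hψ0 l).2.2.1]
  have K2 : Complex.exp (κ₂ + κ₂') = (rho f b)⁻¹ := by
    rw [Complex.exp_add, hκ₂, hκ₂', ← (hCOC k f b ψ hb0 hψ0 i).2.2.1]
    have := (hCOC k f b ψ hb0 hψ0 i).2.2.2 q q
    rw [hqq, hiq] at this
    exact this.symm
  have pi1 := (hF.mx i).pn
  have pl1 := (hF.mx l).pn
  -- the third strip
  obtain ⟨z, hz⟩ : ∃ z : ℝ, z = S₂.im - (y + κ₂.im) := ⟨_, rfl⟩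
  have hC' : Strip b g (ψ i) (ψ l) S₂ (z - r₀ / 200) (z + r₀ / 200) := by
    have := (hSYM k b g l i (ψ l) (ψ i) pl1 pi1 S₂ _ _ hC).1
    have e1 : S₂.im - (y + κ₂.im + r₀ / 200) = z - r₀ / 200 := by rw [hz]; ring
    have e2 : S₂.im - (y + κ₂.im - r₀ / 200) = z + r₀ / 200 := by rw [hz]; ring
    rw [e1, e2] at this
    exact this
  have hA' : Strip b g (ψ i) (ψ l) S (y - r₀ / 200) (y + r₀ / 200) :=
    (hSYM k b g i l (ψ i) (ψ l) pi1 pl1 S _ _ hStrip).2.2.1 _ _ (by linarith) (by linarith)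
  -- errors
  obtain ⟨eB, heB⟩ : ∃ eB : ℂ, eB = S₁ - (S + κ₁ + κ₁') := ⟨_, rfl⟩
  obtain ⟨eC, heC⟩ : ∃ eC : ℂ, eC = S₂ - (S + κ₂ + κ₂') := ⟨_, rfl⟩
  have hB1 : |eB.im| ≤ η := by rw [heB]; exact (Complex.abs_im_le_norm _).trans hS₁
  have hC1 : |eC.im| ≤ η := by rw [heC]; exact (Complex.abs_im_le_norm _).trans hS₂
  have hB2 := abs_le.1 hB1
  have hC2 := abs_le.1 hC1
  -- separation
  have sepAC : ∀ m : ℤ, r₀ ≤ |z + m * (2 * Real.pi) - y| := by
    intro m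
    by_contra hcon
    push Not at hcon
    have h1 := MQ.NG2_sep hSYM hUNQ b g ψ hF i l S S₂ y z r₀ (r₀ / 200) (by positivity) m hStrip hC' hcon
    have h2 : Complex.exp eC = rho f b := by
      have : eC = (S₂ - S) - (κ₂ + κ₂') := by rw [heC]; ring
      rw [this, Complex.exp_sub, h1, K2, one_div, inv_inv]
    have h3 := MQ.NG2_dist _ _ h2
    linarith
  have sepBC : ∀ m : ℤ, r₀ / 200 ≤ |z + m * (2 * Real.pi) - (y + κ₁.im)| := by
    intro m
    by_contra hcon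
    push Not at hcon
    have h1 := MQ.NG2_sep hSYM hUNQ b g ψ hF i l S₁ S₂ (y + κ₁.im) z (r₀ / 200) (r₀ / 200)
      (by positivity) m hB hC' hcon
    have h2 : Complex.exp (eB - eC) = rho f b := by
      have : eB - eC = (κ₂ + κ₂') - (S₂ - S₁) - κ₁ - κ₁' := by rw [heB, heC]; ring
      rw [this, Complex.exp_sub, Complex.exp_sub, Complex.exp_sub, h1, K2, K1, K1']
      field_simp
    have h3 := MQ.NG2_dist _ _ h2
    have h4 : |(eB - eC).im| ≤ 2 * η := by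
      rw [Complex.sub_im, abs_le]
      constructor <;> linarith
    linarith
  have gapAB : ∀ m : ℤ, d₀ ≤ |κ₁.im + m * (2 * Real.pi)| := by
    intro m
    have h2 : Complex.exp (-(κ₁ + m * (2 * Real.pi * I))) = rho f b := by
      rw [Complex.exp_neg, Complex.exp_add, Complex.exp_int_mul_two_pi_mul_I, K1, mul_one, inv_inv]
    have h3 := MQ.NG2_dist _ _ h2
    have h4 : (-(κ₁ + m * (2 * Real.pi * I))).im = -(κ₁.im + m * (2 * Real.pi)) := by
      have : (m : ℂ) * (2 * Real.pi * I) = ((m * (2 * Real.pi) : ℝ) : ℂ) * I := by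
        push_cast; ring
      rw [this]
      simp
    rw [h4, abs_neg] at h3
    exact hd.trans h3
  -- congruences
  obtain ⟨m', hm'⟩ := MQ.NG2_im κ₁' κ₁ (K1'.trans K1.symm)
  obtain ⟨m'', hm''⟩ := MQ.NG2_im (κ₂ + κ₂') κ₁ (K2.trans K1.symm)
  obtain ⟨m₁, hm1a, hm1b⟩ := MQ.NG2_red κ₁.im
  obtain ⟨m₃, hm3a, hm3b⟩ := MQ.NG2_red (z - y)
  obtain ⟨t, ht⟩ : ∃ t : ℝ, t = κ₁.im - m₁ * (2 * Real.pi) := ⟨_, rfl⟩
  obtain ⟨x, hx⟩ : ∃ x : ℝ, x = z - y - m₃ * (2 * Real.pi) := ⟨_, rfl⟩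
  rw [← ht] at hm1a hm1b
  rw [← hx] at hm3a hm3b
  have t1 : d₀ ≤ t := by
    have := gapAB (-m₁)
    have e1 : κ₁.im + ((-m₁ : ℤ) : ℝ) * (2 * Real.pi) = t := by rw [ht]; push_cast; ring
    rwa [e1, abs_of_nonneg hm1a] at this
  have t2 : d₀ ≤ 2 * Real.pi - t := by
    have := gapAB (-m₁ - 1)
    have e1 : κ₁.im + ((-m₁ - 1 : ℤ) : ℝ) * (2 * Real.pi) = -(2 * Real.pi - t) := by
      rw [ht]; push_cast; ring
    rwa [e1, abs_neg, abs_of_nonneg (by linarith)] at this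
  have x1 : r₀ ≤ x := by
    have := sepAC (-m₃)
    have e1 : z + ((-m₃ : ℤ) : ℝ) * (2 * Real.pi) - y = x := by rw [hx]; push_cast; ring
    rwa [e1, abs_of_nonneg hm3a] at this
  have x2 : r₀ ≤ 2 * Real.pi - x := by
    have := sepAC (-m₃ - 1)
    have e1 : z + ((-m₃ - 1 : ℤ) : ℝ) * (2 * Real.pi) - y = -(2 * Real.pi - x) := by
      rw [hx]; push_cast; ring
    rwa [e1, abs_neg, abs_of_nonneg (by linarith)] at this
  have xt : r₀ / 200 ≤ |x - t| := by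
    have := sepBC (m₁ - m₃)
    have e1 : z + ((m₁ - m₃ : ℤ) : ℝ) * (2 * Real.pi) - (y + κ₁.im) = x - t := by
      rw [hx, ht]; push_cast; ring
    rwa [e1] at this
  have SB : S₁.im = S.im + κ₁.im + κ₁'.im + eB.im := by
    rw [heB]; simp only [Complex.sub_im, Complex.add_im]; ring
  have SC : S₂.im = S.im + κ₂.im + κ₂'.im + eC.im := by
    rw [heC]; simp only [Complex.sub_im, Complex.add_im]; ring
  rw [Complex.add_im] at hm''
  have r1 : y + κ₁.im = y + t + m₁ * (2 * Real.pi) := by rw [ht]; ring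
  have r2 : S₁.im - (y + κ₁.im) = (S.im - y) + (t + eB.im) + ((m₁ + m' : ℤ) : ℝ) * (2 * Real.pi) := by
    rw [SB, hm', ht]; push_cast; ring
  have r3 : z = y + x + m₃ * (2 * Real.pi) := by rw [hx]; ring
  have r4 : S₂.im - z = (S.im - y) + (t - x + eC.im) + ((m₁ + m'' - m₃ : ℤ) : ℝ) * (2 * Real.pi) := by
    push_cast
    rw [hx, ht]
    linarith
  rcases lt_or_ge x t with hlt | hge
  · have h1 : r₀ / 200 ≤ t - x := by
      rwa [abs_sub_comm, abs_of_pos (by linarith)] at xt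
    exact MQ.NG2_circ hSYM hPLA b g ψ hF i l hil S S₂ S₁ y z (y + κ₁.im) (r₀ / 200) (by positivity)
      hA' hC' hB x (t - x + eC.im) t (t + eB.im) m₃ (m₁ + m'' - m₃) m₁ (m₁ + m') r3 r4 r1 r2
      (by linarith) hlt (by linarith) (by linarith) (by linarith) (by linarith)
  · have h1 : r₀ / 200 ≤ x - t := by
      rwa [abs_of_nonneg (by linarith)] at xt
    have r4' : S₂.im - z = (S.im - y) + (t - x + eC.im + 2 * Real.pi)
        + ((m₁ + m'' - m₃ - 1 : ℤ) : ℝ) * (2 * Real.pi) := by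
      rw [r4]; push_cast; ring
    exact MQ.NG2_circ hSYM hPLA b g ψ hF i l hil S S₁ S₂ y (y + κ₁.im) z (r₀ / 200) (by positivity)
      hA' hB hC' t (t + eB.im) x (t - x + eC.im + 2 * Real.pi) m₁ (m₁ + m') m₃
      (m₁ + m'' - m₃ - 1) r1 r2 r3 r4'
      (by linarith) (by linarith) (by linarith) (by linarith) (by linarith) (by linarith)

end PPS
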