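import Pool.Agent.helper36.PP.SpecC
import Pool.Agent.helper82.MP.REACH2

set_option autoImplicit false

/-! # Project pp, REACH2: reaching the flat disc (adapted from helper82/MP/REACH2.lean) -/

open Complex Metric Set Filter Topology MeasureTheory MPS

noncomputable section

namespace PPS

theorem REACH2 (hNPL : NPL_stmt) (hNHP : NHP_stmt) (hLEA : PPS.LEA_stmt) (hINC : PPS.INC_stmt)
    (hP2H : PPS.P2H_stmt) (hP2A : PPS.P2A_stmt) (hPT2 : PPS.PT2_stmt) : PPS.REACH2_stmt := by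
  intro n k _ f b g ψ ra R ε y ρ₁ χ G1 ps T G Q μ hH hε hMu p r hp1 hpk hpQ hps hr1 hr2 hnd
  by_contra hcon
  rw [not_le] at hcon
  have hSU2 := hH.su2
  have hSU := hSU2.su
  have hρ : 0 < ρ₁ := hSU2.r0
  have hsys := hH.sys
  -- radii
  have hTp : T p ≤ 9 * ρ₁ / 8 := by
    have : ∀ q, q ≤ Q → T q ≤ 9 * ρ₁ / 8 := by
      intro q
      induction q with
      | zero => intro _; exact hsys.t0
      | succ q ih => intro hq; exact (hsys.anti q hq).trans (ih (Nat.le_of_succ_le hq))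
    exact this p hpQ
  set x : ℂ := ctr y ρ₁ with hx
  have hx' : x = (y : ℂ) * I - ρ₁ / 4 := rfl
  -- the level system
  obtain ⟨-, -, -, hLev, -, -, -⟩ := hP2A n k f b g ψ ra R ε y ρ₁ χ G1 ps T G Q hH
  have hlev := hLev p hpQ
  have hav := (hLEA k f b g G _ p hSU.cyc isOpen_ball hlev).1 p le_rfl
  have hpt := hPT2 n k f b g ψ ra R ε y ρ₁ χ G1 ps T G Q hH p hp1 hpQ
  have hdiff := hlev.diff p le_rfl
  obtain ⟨z, ⟨w₁, hw₁, hzw⟩, ⟨v₁, hv₁, hzv⟩⟩ := not_disjoint_iff.1 hnd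
  have hwv : G p w₁ = χ v₁ := by rw [hzw, hzv]
  rw [mem_ball, dist_eq_norm] at hw₁ hv₁
  -- open sets
  have hΩ : IsOpen (HP 0 ∪ ball ((y : ℂ) * I) (16 * ρ₁)) := by
    refine IsOpen.union ?_ isOpen_ball
    exact isOpen_lt Complex.continuous_re continuous_const
  have hxx : ‖x - (y : ℂ) * I‖ = ρ₁ / 4 := by
    have e : x - (y : ℂ) * I = -((ρ₁ / 4 : ℝ) : ℂ) := by
      rw [hx']
      push_cast
      ring
    rw [e, norm_neg, Complex.norm_real, Real.norm_of_nonneg (by linarith)]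
  have hball : ∀ (v v' : ℂ) (s : ℝ), ‖v' - x‖ + s < 15 * ρ₁ → v ∈ ball v' s →
      v ∈ HP 0 ∪ ball ((y : ℂ) * I) (16 * ρ₁) := by
    intro v v' s hs hv
    rw [mem_ball, dist_eq_norm] at hv
    right
    rw [mem_ball, dist_eq_norm]
    have e : v - (y : ℂ) * I = (v - v') + (v' - x) + (x - (y : ℂ) * I) := by ring
    rw [e]
    have h1 := norm_add_le ((v - v') + (v' - x)) (x - (y : ℂ) * I)
    have h2 := norm_add_le (v - v') (v' - x)
    linarith
  -- the second path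
  have second : ∀ w₂ v₂ : ℂ, ‖w₂ - x‖ ≤ r - ρ₁ / 8 → ‖v₂ - x‖ < 5 / 2 * ρ₁ → G p w₂ = χ v₂ →
      ∃ v₃ : ℂ, ‖v₃ - x‖ < 9 / 2 * ρ₁ ∧ χ v₃ = G p x := by
    intro w₂ v₂ h1 h2 h3
    have hbound : ∀ t ∈ Icc (0 : ℝ) 1, ‖(w₂ + t * (x - w₂)) - x‖ ≤ r - ρ₁ / 8 := by
      intro t ht
      have hc := (convex_closedBall x (r - ρ₁ / 8)).add_smul_sub_mem (x := w₂) (y := x)
        (by rw [mem_closedBall, dist_eq_norm]; exact h1)
        (by rw [mem_closedBall, dist_eq_norm, sub_self, norm_zero]; linarith) ht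
      rw [mem_closedBall, dist_eq_norm, Complex.real_smul] at hc
      exact hc
    have hlen : (∫ t in (0 : ℝ)..1, ‖x - w₂‖ * Real.sqrt ‖deriv (G p) (w₂ + t * (x - w₂)) ^ 2 *
        BB b g (G p (w₂ + t * (x - w₂)))‖) ≤ 3 / 2 * ρ₁ := by
      have hh : ∀ t ∈ Set.uIoc (0 : ℝ) 1, ‖‖x - w₂‖ * Real.sqrt ‖deriv (G p) (w₂ + t * (x - w₂)) ^ 2 *
          BB b g (G p (w₂ + t * (x - w₂)))‖‖ ≤ 3 / 2 * ρ₁ := by
        intro t ht
        rw [uIoc_of_le zero_le_one] at ht
        have h4 := hbound t ⟨ht.1.le, ht.2⟩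
        obtain ⟨h5, h6⟩ := hpt (w₂ + t * (x - w₂)) (ρ₁ / 8) (by linarith) (by
          linarith)
        have h7 : 130 * ε / (ρ₁ / 8) ^ 2 ≤ 1 / 16 := by
          rw [div_le_iff₀ (by positivity)]
          nlinarith [sq_nonneg ρ₁, hε]
        have h8 : ‖tau b g G p (w₂ + t * (x - w₂)) - 1‖ ≤ 1 / 16 := h6.trans (h5.trans h7)
        have h9 : Real.sqrt ‖tau b g G p (w₂ + t * (x - w₂))‖ ≤ 5 / 4 := by
          refine (REACH2_sqrt).trans ?_
          have : Real.sqrt ‖tau b g G p (w₂ + t * (x - w₂)) - 1‖ ≤ 1 / 4 := by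
            apply Real.sqrt_le_iff.2
            refine ⟨by norm_num, h8.trans (by norm_num)⟩
          linarith
        have h10 : ‖x - w₂‖ ≤ 9 / 8 * ρ₁ := by
          rw [norm_sub_rev]
          linarith
        rw [Real.norm_of_nonneg (by positivity)]
        have h11 := mul_le_mul h10 h9 (Real.sqrt_nonneg _) (by linarith)
        have h12 : ‖x - w₂‖ * Real.sqrt ‖deriv (G p) (w₂ + t * (x - w₂)) ^ 2 *
          BB b g (G p (w₂ + t * (x - w₂)))‖ ≤ 9 / 8 * ρ₁ * (5 / 4) := h11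
        linarith
      have := intervalIntegral.norm_integral_le_of_norm_le_const hh
      rw [sub_zero, abs_one, mul_one] at this
      exact (le_abs_self _).trans this
    obtain ⟨v₃, h4, h5⟩ := hNPL k b g χ (G p) _ (ball x (T p)) v₂ w₂ x (2 * ρ₁) hΩ isOpen_ball hSU2.nat
      (fun v hv => hball v v₂ _ (by linarith) hv) hdiff hav
      ((convex_ball x (T p)).segment_subset (by rw [mem_ball, dist_eq_norm]; linarith)
        (by rw [mem_ball, dist_eq_norm, sub_self, norm_zero]; linarith)) h3 (by linarith)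
    refine ⟨v₃, ?_, h5⟩
    have : v₃ - x = (v₃ - v₂) + (v₂ - x) := by ring
    rw [this]
    exact (norm_add_le _ _).trans_lt (by linarith)
  -- the first path
  have first : ∃ w₂ v₂ : ℂ, ‖w₂ - x‖ ≤ r - ρ₁ / 8 ∧ ‖v₂ - x‖ < 5 / 2 * ρ₁ ∧ G p w₂ = χ v₂ := by
    by_cases hw : ‖w₁ - x‖ ≤ r - ρ₁ / 8
    · exact ⟨w₁, v₁, hw, by linarith, hwv⟩
    · rw [not_le] at hw
      set a := ‖w₁ - x‖ with ha
      have ha0 : 0 < a := by linarith
      set κ : ℝ := (r - ρ₁ / 8) / a with hκ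
      have hκ0 : 0 < κ := div_pos (by linarith) ha0
      have hκ1 : κ < 1 := (div_lt_one ha0).2 hw
      have hκa : κ * a = r - ρ₁ / 8 := div_mul_cancel₀ _ ha0.ne'
      set w₂ : ℂ := x + κ * (w₁ - x) with hw₂
      have hw₂x : ‖w₂ - x‖ = r - ρ₁ / 8 := by
        have e : w₂ - x = κ * (w₁ - x) := by rw [hw₂]; ring
        rw [e, norm_mul, Complex.norm_real, Real.norm_of_nonneg hκ0.le, ← ha, hκa]
      have hl : ‖w₂ - w₁‖ = a - (r - ρ₁ / 8) := by
        have e : w₂ - w₁ = -(((1 - κ : ℝ) : ℂ) * (w₁ - x)) := by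
          rw [hw₂]
          push_cast
          ring
        rw [e, norm_neg, norm_mul, Complex.norm_real, Real.norm_of_nonneg (by linarith), ← ha]
        linear_combination (-1 : ℝ) * hκa
      have hpath : ∀ t ∈ Icc (0 : ℝ) 1, ‖(w₁ + t * (w₂ - w₁)) - x‖ = a - t * (a - (r - ρ₁ / 8)) := by
        intro t ht
        have e : w₁ + t * (w₂ - w₁) - x = ((1 - t * (1 - κ) : ℝ) : ℂ) * (w₁ - x) := by
          rw [hw₂]
          push_cast
          ring
        have h0 : 0 ≤ 1 - t * (1 - κ) := by nlinarith [ht.1, ht.2]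
        rw [e, norm_mul, Complex.norm_real, Real.norm_of_nonneg h0, ← ha]
        linear_combination t * hκa
      have hlen := REACH2_B (fun t => ‖w₂ - w₁‖ * Real.sqrt ‖deriv (G p) (w₁ + t * (w₂ - w₁)) ^ 2 *
          BB b g (G p (w₁ + t * (w₂ - w₁)))‖)
        (fun t => ENNReal.ofReal (2 / (Real.sqrt Real.pi * t)) *
          (μ (Ioo (9 * ρ₁ / 8 - r + t / 2) (9 * ρ₁ / 8 - r + 3 * t / 2))) ^ (1 / 2 : ℝ))
        (a - (r - ρ₁ / 8)) (r - a) (ρ₁ / 8) (by linarith) (by linarith) (by linarith) (by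
          intro t ht
          refine ⟨by positivity, ?_⟩
          have hn := hpath t ⟨ht.1.le, ht.2.le⟩
          set w := w₁ + t * (w₂ - w₁) with hwdef
          have hpos : 0 < r - a + (a - (r - ρ₁ / 8)) * t := by
            have : 0 < (a - (r - ρ₁ / 8)) * t := mul_pos (by linarith) ht.1
            linarith
          have hm := hMu p hp1 hpQ (9 * ρ₁ / 8 - r) (r - a + (a - (r - ρ₁ / 8)) * t) w (by linarith) hpos (by
            rw [hn]
            ring)
          obtain ⟨-, h6⟩ := hpt w (r - a + (a - (r - ρ₁ / 8)) * t) hpos (by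
            rw [hn]
            have : a - t * (a - (r - ρ₁ / 8)) + (r - a + (a - (r - ρ₁ / 8)) * t) = r := by ring
            rw [this]
            exact hr2)
          have h7 := REACH2_F (norm_nonneg (tau b g G p w - 1)) hpos
            ((ENNReal.ofReal_le_ofReal h6).trans hm)
          rw [hl]
          have h8 : ENNReal.ofReal ((a - (r - ρ₁ / 8)) * Real.sqrt ‖deriv (G p) w ^ 2 * BB b g (G p w)‖) ≤
              ENNReal.ofReal ((a - (r - ρ₁ / 8)) + (a - (r - ρ₁ / 8)) * Real.sqrt ‖tau b g G p w - 1‖) := by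
            apply ENNReal.ofReal_le_ofReal
            have h9 : Real.sqrt ‖deriv (G p) w ^ 2 * BB b g (G p w)‖ ≤ 1 + Real.sqrt ‖tau b g G p w - 1‖ :=
              REACH2_sqrt (z := tau b g G p w)
            have h10 := mul_le_mul_of_nonneg_left h9 (by linarith : (0 : ℝ) ≤ a - (r - ρ₁ / 8))
            linarith
          refine h8.trans ?_
          rw [ENNReal.ofReal_add (by linarith) (mul_nonneg (by linarith) (Real.sqrt_nonneg _)),
            ENNReal.ofReal_mul (by linarith)]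
          exact add_le_add le_rfl (mul_le_mul' le_rfl h7))
      have hlt : ENNReal.ofReal (a - (r - ρ₁ / 8)) + PsiM μ (ρ₁ / 8) (9 * ρ₁ / 8 - r) <
          ENNReal.ofReal (ρ₁ / 8) + ENNReal.ofReal ρ₁ :=
        ENNReal.add_lt_add_of_le_of_lt ENNReal.ofReal_ne_top (ENNReal.ofReal_le_ofReal (by linarith)) hcon
      rw [← ENNReal.ofReal_add (by linarith) hρ.le] at hlt
      have hlt2 := hlen.trans_lt hlt
      have hlt3 := (ENNReal.ofReal_lt_ofReal_iff (by linarith)).1 hlt2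
      obtain ⟨v₂, h4, h5⟩ := hNPL k b g χ (G p) _ (ball x (T p)) v₁ w₁ w₂ (ρ₁ / 8 + ρ₁) hΩ isOpen_ball
        hSU2.nat (fun v hv => hball v v₁ _ (by linarith) hv) hdiff hav
        ((convex_ball x (T p)).segment_subset (by rw [mem_ball, dist_eq_norm]; linarith)
          (by rw [mem_ball, dist_eq_norm, hw₂x]; linarith)) hwv hlt3
      refine ⟨w₂, v₂, hw₂x.le, ?_, h5.symm⟩
      have : v₂ - x = (v₂ - v₁) + (v₁ - x) := by ring
      rw [this]
      exact (norm_add_le _ _).trans_lt (by linarith)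
  obtain ⟨w₂, v₂, h1, h2, h3⟩ := first
  obtain ⟨v₃, h4, h5⟩ := second w₂ v₂ h1 h2 h3
  -- the value at `x` is in the cylinder of `b (-p)`
  have hG : G p x ∈ ψ (-(p : ZMod k)) '' ball 0 1 := by
    have hv := hsys.val p hpQ
    rw [hv]
    obtain ⟨hH1, -, -, -, -⟩ := hP2H n k f b g ψ ra R ε y ρ₁ χ G1 ps hSU2
    have hε' : ε ≤ (ρ₁ / 64) ^ 2 / 1024 := by
      have : ρ₁ ^ 2 / 10 ^ 7 ≤ (ρ₁ / 64) ^ 2 / 1024 := by
        rw [div_le_div_iff₀ (by norm_num) (by norm_num)]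
        nlinarith [sq_nonneg ρ₁]
      exact hε.trans this
    obtain ⟨Φ, κ, -, -, -, -, -, hsub⟩ := hINC n k f b g ψ ra R ε (ρ₁ / 64) (fun _ => 3 * (ρ₁ / 64)) G1 p
      (hH1 p hpk.le) hp1 hε'
    apply hsub
    refine ⟨Complex.exp x, ?_, rfl⟩
    rw [mem_ball_zero_iff, Complex.norm_exp]
    apply Real.exp_lt_exp.2
    have : x.re = -(ρ₁ / 4) := by
      rw [hx']
      simp
    rw [this]
    linarith
  have hne : (0 : ZMod k) ≠ -(p : ZMod k) := by
    intro h
    have h' : (p : ZMod k) = 0 := by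
      have := congrArg Neg.neg h
      rw [neg_zero, neg_neg] at this
      exact this.symm
    rw [ZMod.natCast_eq_zero_iff] at h'
    exact absurd (Nat.le_of_dvd hp1 h') (not_le.2 hpk)
  rw [← h5] at hG
  have hfin := hNHP k b g 0 (-(p : ZMod k)) (ψ 0) (ψ (-(p : ZMod k))) χ y ρ₁ v₃ hSU.cyc.inj hne
    (hSU.mx 0).pn (hSU.mx _).pn hρ hSU2.nat hSU2.ext (by
      rw [mem_ball, dist_eq_norm]
      have e : v₃ - (y : ℂ) * I = (v₃ - x) + (x - (y : ℂ) * I) := by ring
      rw [e]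
      have h1 := norm_add_le (v₃ - x) (x - (y : ℂ) * I)
      linarith) hG
  exact hps (hSU2.hps p hp1 hpk hfin)

end PPS
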