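import Pool.Agent.helper25.PP.Spec

/-!
# Project pp (MP_45d809_mp): the proportion (POS)
-/

set_option autoImplicit false

namespace PP

open Finset SimpleGraph CT

section
variable {V : Type} [Fintype V] [DecidableEq V]

theorem POS_bit (G : SimpleGraph V) : bit G = 0 ∨ bit G = 1 := by
  unfold bit
  split_ifs
  · exact Or.inr rfl
  · exact Or.inl rfl

theorem POS_add : (cc fun G : SimpleGraph V => bit G = 1) + (cc fun G : SimpleGraph V => bit G = 0) =
    cc fun _ : SimpleGraph V => True := by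
  classical
  unfold cc
  rw [← Finset.card_union_of_disjoint]
  · congr 1
    ext G
    rw [mem_union, mem_cc, mem_cc, mem_cc]
    constructor
    · rintro (h | h)
      · exact ⟨h.1, trivial⟩
      · exact ⟨h.1, trivial⟩
    · rintro ⟨h, -⟩
      rcases POS_bit G with h0 | h0
      · exact Or.inr ⟨h, h0⟩
      · exact Or.inl ⟨h, h0⟩
  · rw [Finset.disjoint_left]
    intro G h1 h2
    rw [mem_cc] at h1 h2
    have := h1.2.symm.trans h2.2
    exact one_ne_zero this

theorem POS_le : (cc (V := V) PrimeAncestor) + (cc fun G : SimpleGraph V => bit G = 0) ≤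
    (cc fun G : SimpleGraph V => PrimeAncestor G ∧ bit G = 0) + cc fun _ : SimpleGraph V => True := by
  classical
  unfold cc
  rw [← Finset.card_union_add_card_inter, add_comm]
  refine Nat.add_le_add (Finset.card_le_card ?_) (Finset.card_le_card ?_)
  · intro G hG
    rw [mem_inter, mem_cc, mem_cc] at hG
    rw [mem_cc]
    exact ⟨hG.1.1, hG.1.2, hG.2.2⟩
  · intro G hG
    rw [mem_union, mem_cc, mem_cc] at hG
    rw [mem_cc]
    rcases hG with h | h
    · exact ⟨h.1, trivial⟩
    · exact ⟨h.1, trivial⟩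

theorem POS_mono : (cc (V := V) PrimeAncestor) ≤ cc fun _ : SimpleGraph V => True := by
  unfold cc
  refine Finset.card_le_card fun G hG => ?_
  rw [mem_cc] at hG ⊢
  exact ⟨hG.1, trivial⟩

end

theorem POS (h1 : AAP_stmt) (h2 : FC_stmt) : POS_stmt := by
  intro ε hε
  obtain ⟨n₁, hn₁⟩ := h1 (ε / 2) (by positivity)
  refine ⟨max n₁ (⌈8 / ε⌉₊ + 30), fun V _ _ hV => ?_⟩
  have hV1 : n₁ ≤ Fintype.card V := (le_max_left _ _).trans hV
  have hV2 : ⌈8 / ε⌉₊ + 30 ≤ Fintype.card V := (le_max_right _ _).trans hV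
  have hA := hn₁ V hV1
  have hF := h2 V (by omega)
  have hadd := POS_add (V := V)
  have hle := POS_le (V := V)
  have hmono := POS_mono (V := V)
  generalize (cc fun G : SimpleGraph V => bit G = 1) = x at hF hadd
  generalize (cc fun G : SimpleGraph V => bit G = 0) = y at hF hadd hle
  generalize (cc fun _ : SimpleGraph V => True) = t at hA hadd hle hmono
  generalize (cc (V := V) PrimeAncestor) = p at hA hle hmono ⊢
  generalize (cc fun G : SimpleGraph V => PrimeAncestor G ∧ bit G = 0) = z at hle ⊢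
  generalize Fintype.card V = n at hV2 hF
  have hn : (8 / ε : ℝ) + 30 ≤ n := by
    have h3 := Nat.le_ceil (8 / ε)
    have h4 : ((⌈8 / ε⌉₊ + 30 : ℕ) : ℝ) ≤ n := by exact_mod_cast hV2
    push_cast at h4
    linarith
  have h8 : 0 < 8 / ε := by positivity
  have hn0 : (0 : ℝ) < n := by linarith
  have hF' : ((n : ℝ) - 25) * x ≤ 4 * n * y := by
    have h3 : ((n * (4 * n - 100) * x : ℕ) : ℝ) ≤ ((16 * n ^ 2 * y : ℕ) : ℝ) := by
      exact_mod_cast hF
    have h4 : 100 ≤ 4 * n := by
      have : (100 : ℝ) ≤ 4 * n := by linarith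
      exact_mod_cast this
    push_cast [Nat.cast_sub h4] at h3
    have h5 : (n : ℝ) * (((n : ℝ) - 25) * x) ≤ n * (4 * n * y) := by nlinarith
    exact le_of_mul_le_mul_left h5 hn0
  have hadd' : (x : ℝ) + y = t := by exact_mod_cast hadd
  have hle' : (p : ℝ) + y ≤ z + t := by exact_mod_cast hle
  have hmono' : (p : ℝ) ≤ t := by exact_mod_cast hmono
  have hp0 : (0 : ℝ) ≤ p := Nat.cast_nonneg p
  have hz0 : (0 : ℝ) ≤ z := Nat.cast_nonneg z
  have ht0 : (0 : ℝ) ≤ t := Nat.cast_nonneg t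
  have h3 : ((n : ℝ) - 25) * t ≤ (5 * n - 25) * y := by
    have : (x : ℝ) = t - y := by linarith
    rw [this] at hF'
    linarith
  have h4 : (1 / 5 - ε / 2) * (5 * (n : ℝ) - 25) ≤ n - 25 := by
    have h6 : 8 / ε * ε = 8 := by field_simp
    have h7 : 8 ≤ ε * ((n : ℝ) - 5) := by
      have : 8 / ε * ε ≤ ((n : ℝ) - 5) * ε := mul_le_mul_of_nonneg_right (by linarith) hε.le
      linarith
    linarith
  have h5 : (1 / 5 - ε / 2) * (t : ℝ) ≤ y := by
    have h6 : (5 * (n : ℝ) - 25) * ((1 / 5 - ε / 2) * t) ≤ (5 * (n : ℝ) - 25) * y := by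
      calc (5 * (n : ℝ) - 25) * ((1 / 5 - ε / 2) * t) =
          (1 / 5 - ε / 2) * (5 * (n : ℝ) - 25) * t := by ring
        _ ≤ (n - 25) * t := mul_le_mul_of_nonneg_right h4 ht0
        _ ≤ _ := h3
    exact le_of_mul_le_mul_left h6 (by linarith)
  have h6 : (1 / 5 - ε) * (t : ℝ) ≤ z := by linarith
  rcases le_total (1 / 5 - ε) 0 with h7 | h7
  · exact (mul_nonpos_of_nonpos_of_nonneg h7 hp0).trans hz0
  · exact (mul_le_mul_of_nonneg_left hmono' h7).trans h6

end PP
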